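import Mathlib
import Pool.Agent.Y938.Win.B
import Pool.Agent.W24.BothFin

/-!
# Large values of both signs in every window
-/

open MeasureTheory Filter Topology Finset
open Pool.Agent.H383.AP Pool.Agent.H383.Gen Pool.Agent.H383.GW
open Pool.Agent.W24.Riesz Pool.Agent.W24.Liou Pool.Agent.W24.Ar Pool.Agent.W24.Both

namespace Pool.Agent.Y938.Win

lemma sqrt_one_mul' (d : ℕ) : √((1:ℕ):ℝ) * √(d:ℝ) = √(d:ℝ) := by
  rw [Nat.cast_one, Real.sqrt_one, one_mul]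

/-- the arithmetic input for products of primes -/
lemma RA_of {h : ℕ} {p : Fin h → ℕ} (hp : ∀ i, (p i).Prime) (hinj : Function.Injective p)
    {M : ℕ} (hM : 1 ≤ M) (hdM : ∀ S : JJ (Fin h), dd p S ≤ M^2) {B : ℝ} (hB1 : 1 ≤ B)
    (hB : 2 * (∑ S : JJ (Fin h), √(dd p S : ℝ) + M) + 1 ≤ B)
    (hfar : ∑ S : JJ (Fin h), √(dd p S : ℝ) ≤ M / 2) :
    RA (dd p) M (B ^ (2 ^ (h + 2))) := by
  have hκ : ∀ i, ¬ p i ∣ 1 := by
    intro i hi
    exact (hp i).one_lt.ne' (Nat.dvd_one.mp hi)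
  have hfr : ∀ ε : JJ (Fin h) → ℤ, fr (fun S => √((1:ℕ):ℝ) * √(dd p S : ℝ)) ε = fr (fun S => √(dd p S : ℝ)) ε := by
    intro ε
    simp only [sqrt_one_mul']
  have hG1 : 1 ≤ B ^ (2 ^ (h + 2)) := one_le_pow₀ hB1
  refine ⟨hM, hG1, dd_pos hp, hdM, dd_inj hp hinj, ?_, ?_, ?_, ?_⟩
  · intro ε hε h0
    have h1 := ind_all hp hinj one_pos hκ ε hε 0 (by
      refine ⟨0, ?_⟩
      rw [hfr, Nat.cast_zero, Real.sqrt_zero, mul_zero, add_zero, h0, Int.cast_zero])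
    rcases h1 with h1 | ⟨T, hT, -⟩
    · exact h1
    · have := dd_pos hp T
      omega
  · intro ε hε m hm h0
    have h1 := ind_all hp hinj one_pos hκ ε hε m (by
      refine ⟨0, ?_⟩
      rw [hfr, sqrt_one_mul', h0, Int.cast_zero])
    rcases h1 with h1 | h1
    · exfalso
      rw [h1, fr_zero, zero_add] at h0
      have : (0:ℝ) < √(m:ℝ) := Real.sqrt_pos.mpr (by exact_mod_cast hm)
      linarith
    · exact h1
  · intro ε hε m hm hne
    have h1 := gap_all hp one_pos hM hB1 (by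
      simp only [Nat.cast_one, Real.sqrt_one, one_mul]
      exact hB) ε hε m hm
    rw [hfr, sqrt_one_mul', Fintype.card_fin] at h1
    set x := fr (fun S => √(dd p S : ℝ)) ε + √(m:ℝ) with hx
    rcases h1 with ⟨k, hk⟩ | h1
    · have hk0 : k ≠ 0 := by
        intro h2
        rw [h2, Int.cast_zero] at hk
        exact hne hk
      have h2 : (1:ℝ) ≤ |x| := by
        rw [hk]
        have := Int.one_le_abs hk0
        exact_mod_cast this
      refine le_trans ?_ h2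
      rw [div_le_one (by linarith)]
      exact hG1
    · refine h1.trans ?_
      unfold nz
      have := round_le x 0
      rw [Int.cast_zero, sub_zero] at this
      exact this
  · intro ε hε
    refine le_trans ?_ hfar
    unfold fr
    refine (Finset.abs_sum_le_sum_abs _ _).trans (Finset.sum_le_sum (fun S _ => ?_))
    have h4 := (Fintype.mem_piFinset.mp hε) S
    have h5 : |(ε S : ℝ)| ≤ 1 := by
      simp only [sg, Finset.mem_insert, Finset.mem_singleton] at h4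
      rcases h4 with h | h | h <;> rw [h] <;> norm_num
    rw [abs_mul, abs_of_nonneg (Real.sqrt_nonneg _)]
    calc |(ε S : ℝ)| * √(dd p S : ℝ) ≤ 1 * √(dd p S : ℝ) := by gcongr
      _ = _ := one_mul _

lemma sq_le_four_two_pow (k : ℕ) : k ^ 2 ≤ 4 * 2 ^ k := by
  induction k with
  | zero => simp
  | succ k ih =>
    rcases Nat.lt_or_ge k 3 with hk | hk
    · interval_cases k <;> norm_num
    · have : (k+1)^2 ≤ 2 * k^2 := by nlinarith
      calc (k+1)^2 ≤ 2 * k^2 := this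
        _ ≤ 2 * (4 * 2^k) := by omega
        _ = 4 * 2^(k+1) := by ring

lemma sqrt_dd_le {h : ℕ} {p : Fin h → ℕ} (hp : ∀ i, p i ≤ 2 ^ h) (S : JJ (Fin h)) :
    √(dd p S : ℝ) ≤ 2 ^ (500 * 2 ^ h) := by
  have h1 : dd p S ≤ (2 ^ (500 * 2 ^ h)) ^ 2 := by
    unfold dd
    calc ∏ i ∈ S.1, p i ≤ ∏ i ∈ S.1, 2 ^ h := Finset.prod_le_prod' (fun i _ => hp i)
      _ = (2 ^ h) ^ S.1.card := by rw [Finset.prod_const]
      _ ≤ (2 ^ h) ^ h := by
          apply Nat.pow_le_pow_right (by positivity)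
          have := Finset.card_le_univ S.1
          rwa [Fintype.card_fin] at this
      _ = 2 ^ (h^2) := by rw [← pow_mul, sq]
      _ ≤ 2 ^ (2 * (500 * 2^h)) := by
          apply Nat.pow_le_pow_right (by norm_num)
          have := sq_le_four_two_pow h
          omega
      _ = _ := by rw [← pow_mul]; congr 1; ring
  rw [Real.sqrt_le_left (by positivity)]
  exact_mod_cast h1

/-- the allowed error in the window -/
lemma er_le {R r : ℝ} (hR : 4 ≤ R) (h1 : R ≤ r) (h2 : r ≤ 2 * R) : er r (R ^ (-(52/100):ℝ)) ≤ 4 := by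
  have hR0 : 0 < R := by linarith
  have hR1 : 1 ≤ R := by linarith
  have hr0 : 0 < r := by linarith
  unfold er
  have e1 : R ^ (-(52/100):ℝ) * r ^ (51/100:ℝ) ≤ 2 := by
    have h3 : r ^ (51/100:ℝ) ≤ 2 ^ (51/100:ℝ) * R ^ (51/100:ℝ) := by
      rw [← Real.mul_rpow (by norm_num) hR0.le]
      exact Real.rpow_le_rpow hr0.le h2 (by norm_num)
    have h4 : (2:ℝ) ^ (51/100:ℝ) ≤ 2 := by
      calc (2:ℝ) ^ (51/100:ℝ) ≤ 2 ^ (1:ℝ) := Real.rpow_le_rpow_of_exponent_le (by norm_num) (by norm_num)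
        _ = 2 := Real.rpow_one _
    have h5 : R ^ (-(52/100):ℝ) * R ^ (51/100:ℝ) ≤ 1 := by
      rw [← Real.rpow_add hR0]
      exact Real.rpow_le_one_of_one_le_of_nonpos hR1 (by norm_num)
    calc R ^ (-(52/100):ℝ) * r ^ (51/100:ℝ) ≤ R ^ (-(52/100):ℝ) * (2 ^ (51/100:ℝ) * R ^ (51/100:ℝ)) := by gcongr
      _ = 2 ^ (51/100:ℝ) * (R ^ (-(52/100):ℝ) * R ^ (51/100:ℝ)) := by ring
      _ ≤ 2 * 1 := by gcongr
      _ = 2 := by norm_num
  have e2 : r ^ (-(12/25):ℝ) * (R ^ (-(52/100):ℝ)) ^ (-(13/25):ℝ) ≤ 1 := by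
    have h3 : r ^ (-(12/25):ℝ) ≤ R ^ (-(12/25):ℝ) := Real.rpow_le_rpow_of_nonpos hR0 h1 (by norm_num)
    calc _ ≤ R ^ (-(12/25):ℝ) * (R ^ (-(52/100):ℝ)) ^ (-(13/25):ℝ) := by gcongr
      _ = R ^ ((-(12/25):ℝ) + (-(52/100)) * (-(13/25))) := by
          rw [← Real.rpow_mul hR0.le, ← Real.rpow_add hR0]
      _ ≤ 1 := Real.rpow_le_one_of_one_le_of_nonpos hR1 (by norm_num)
  have e3 : (R ^ (-(52/100):ℝ)) ^ (2/5:ℝ) ≤ 1 := by
    rw [← Real.rpow_mul hR0.le]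
    exact Real.rpow_le_one_of_one_le_of_nonpos hR1 (by norm_num)
  linarith

lemma delta_le_half {R : ℝ} (hR : 4 ≤ R) : R ^ (-(52/100):ℝ) ≤ 1/2 := by
  have h1 : R ^ (-(52/100):ℝ) ≤ (4:ℝ) ^ (-(52/100):ℝ) := Real.rpow_le_rpow_of_nonpos (by norm_num) hR (by norm_num)
  have h2 : (4:ℝ) ^ (-(52/100):ℝ) ≤ (4:ℝ) ^ (-(1/2):ℝ) := Real.rpow_le_rpow_of_exponent_le (by norm_num) (by norm_num)
  have h3 : (4:ℝ) ^ (-(1/2):ℝ) = 1/2 := by
    rw [Real.rpow_neg (by norm_num), ← Real.sqrt_eq_rpow, show (4:ℝ) = 2^2 by norm_num, Real.sqrt_sq (by norm_num)]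
    norm_num
  linarith

variable {a : ℕ → ℝ} {φ : ℝ} {w : ℝ → ℂ} {E : ℝ → ℝ}

/-- large values of both signs in every window, in terms of the primes -/
theorem window_core (ha : Bd a) (ha0 : a 0 = 0) (hw : Wt w) {κ₁ κ₂ C0 : ℝ} (hC0 : 0 < C0)
    (hS : Sand E a φ w κ₁ κ₂ C0) : ∃ h0 : ℕ, ∀ h : ℕ, h0 ≤ h → ∀ p : Fin h → ℕ, (∀ i, (p i).Prime) →
      Function.Injective p → (∀ i, p i ≤ 2 ^ h) → ∀ R H : ℝ, 4 ≤ R → H ≤ R → (2:ℝ) ^ (10000 * 4 ^ h) ≤ H →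
      ∀ s : ℝ, (s = 1 ∨ s = -1) → 3 ≤ ∑ S : JJ (Fin h), a (dd p S) →
      ∃ r ∈ Set.Icc R (R + H), 1/3 * ∑ S : JJ (Fin h), a (dd p S) - (2 + 4 * C0) ≤ s * E r := by
  obtain ⟨C', hC', htail⟩ := WS_tail (a := a) (φ := φ) (w := w) ha ha0 hw
  have ha' := ha
  obtain ⟨Ca, hCa, haC⟩ := ha
  obtain ⟨Cl, hCl, hl⟩ := hw.lip
  set Sg1 : ℝ := ∑' m : ℕ, |a m| * (√(m:ℝ))⁻¹ with hSg1
  obtain ⟨t1, ht1⟩ := exists_nat_ge Sg1
  obtain ⟨t2, ht2⟩ := exists_nat_ge (Ca * (Cl + 2 * Real.pi * (|κ₁| + |κ₂|)))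
  refine ⟨max (max t1 t2) 4, ?_⟩
  intro h hh p hp hinj hple R H hR hHR hH s hs hbig
  have hpi := Real.pi_pos
  have hpi3 := Real.pi_gt_three
  have hh1 : t1 ≤ h := by omega
  have hh2 : t2 ≤ h := by omega
  have hh4 : 4 ≤ h := by omega
  have hhT : h < 2 ^ h := Nat.lt_two_pow_self
  have hdM0 := dd_le hple
  have hsdd0 := sqrt_dd_le hple
  have hcard0 := card_JJ_le h
  obtain ⟨T, hT⟩ : ∃ T : ℕ, T = 2 ^ h := ⟨_, rfl⟩
  rw [← hT] at hhT hdM0 hcard0 hsdd0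
  have hT16 : 16 ≤ T := by
    calc 16 = 2^4 := by norm_num
      _ ≤ 2^h := Nat.pow_le_pow_right (by norm_num) hh4
      _ = T := hT.symm
  have hT4 : 4 ^ h = T * T := by
    rw [hT, ← mul_pow]; norm_num
  obtain ⟨M, hM⟩ : ∃ M : ℕ, M = 2 ^ (1000 * T) := ⟨_, rfl⟩
  rw [← hM] at hdM0
  have hM1 : 1 ≤ M := by rw [hM]; exact Nat.one_le_two_pow
  rw [hT4] at hH
  have hMR : (M:ℝ) = 2 ^ (1000 * T) := by rw [hM]; push_cast; rfl
  have hM1R : (1:ℝ) ≤ M := by exact_mod_cast hM1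
  have hM0R : (0:ℝ) < M := by linarith
  have hTT : T ≤ T * T := Nat.le_mul_of_pos_left T (by omega)
  have hT2 : (T:ℝ) ≤ 2 ^ T := by exact_mod_cast (Nat.lt_two_pow_self (n := T)).le
  have hH0 : 0 < H := lt_of_lt_of_le (by positivity) hH
  have hR0 : 0 < R := by linarith
  -- the sum of the square roots
  have hsum : ∑ S : JJ (Fin h), √(dd p S : ℝ) ≤ T * 2 ^ (500 * T) := by
    calc ∑ S : JJ (Fin h), √(dd p S : ℝ) ≤ ∑ S : JJ (Fin h), (2:ℝ) ^ (500 * T) := Finset.sum_le_sum (fun S _ => hsdd0 S)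
      _ = (Fintype.card (JJ (Fin h)) : ℝ) * 2 ^ (500 * T) := by rw [Finset.sum_const, Finset.card_univ, nsmul_eq_mul]
      _ ≤ _ := by gcongr
  have hfar : ∑ S : JJ (Fin h), √(dd p S : ℝ) ≤ M / 2 := by
    rw [le_div_iff₀ (by norm_num)]
    calc (∑ S : JJ (Fin h), √(dd p S : ℝ)) * 2 ≤ (T * 2 ^ (500 * T)) * 2 := by gcongr
      _ ≤ (2 ^ T * 2 ^ (500 * T)) * 2 ^ 1 := by rw [pow_one]; gcongr
      _ = 2 ^ (T + 500 * T + 1) := by rw [← pow_add, ← pow_add]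
      _ ≤ 2 ^ (1000 * T) := pow_le_pow_right₀ (by norm_num) (by omega)
      _ = M := hMR.symm
  have hM4 : (4:ℝ) ≤ M := by
    rw [hMR]
    calc (4:ℝ) = 2^2 := by norm_num
      _ ≤ 2 ^ (1000 * T) := pow_le_pow_right₀ (by norm_num) (by omega)
  have hB1 : (1:ℝ) ≤ (M:ℝ)^2 := one_le_pow₀ hM1R
  have hB : 2 * (∑ S : JJ (Fin h), √(dd p S : ℝ) + M) + 1 ≤ (M:ℝ)^2 := by nlinarith
  have hA := RA_of hp hinj hM1 hdM0 hB1 hB hfar
  obtain ⟨G, hG⟩ : ∃ G : ℝ, G = ((M:ℝ)^2) ^ (2 ^ (h + 2)) := ⟨_, rfl⟩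
  rw [← hG] at hA
  have hGT : G = 2 ^ (8000 * (T * T)) := by
    rw [hG, hMR, ← pow_mul, ← pow_mul, pow_add, ← hT]
    congr 1
    ring
  have hG1 := hA.G_ge
  -- δ
  obtain ⟨δ, hδ⟩ : ∃ δ : ℝ, δ = R ^ (-(52/100):ℝ) := ⟨_, rfl⟩
  have hδ0 : 0 < δ := by rw [hδ]; positivity
  have hδ1 : δ ≤ 1/2 := by rw [hδ]; exact delta_le_half hR
  have hδT : δ ≤ 1 / 2 ^ (5000 * (T * T)) := by
    have h1 : (2:ℝ) ^ (10000 * (T * T)) ≤ R := hH.trans hHR
    have h2 : δ ≤ (2:ℝ) ^ (-(5200 * ((T:ℝ) * T))) := by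
      rw [hδ]
      calc R ^ (-(52/100):ℝ) ≤ ((2:ℝ) ^ (10000 * (T * T))) ^ (-(52/100):ℝ) :=
            Real.rpow_le_rpow_of_nonpos (by positivity) h1 (by norm_num)
        _ = _ := by
            rw [← Real.rpow_natCast, ← Real.rpow_mul (by norm_num)]
            congr 1
            push_cast; ring
    refine h2.trans ?_
    rw [one_div, ← Real.rpow_natCast, ← Real.rpow_neg (by norm_num)]
    apply Real.rpow_le_rpow_of_exponent_le (by norm_num)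
    push_cast
    have : (0:ℝ) ≤ (T:ℝ) * T := by positivity
    linarith
  have h2T : (2:ℝ) ^ (Fintype.card (JJ (Fin h))) ≤ 2 ^ T := pow_le_pow_right₀ (by norm_num) hcard0
  have hH' : (2:ℝ) ^ (10000 * (T * T)) ≤ Real.pi * H := by nlinarith
  have hpiH : 0 < Real.pi * H := by positivity
  have hc1 : 2 ^ (Fintype.card (JJ (Fin h))) * (G / (Real.pi * H)) ≤ 1/2 := by
    rw [mul_div_assoc', div_le_iff₀ hpiH, hGT]
    calc 2 ^ (Fintype.card (JJ (Fin h))) * (2:ℝ) ^ (8000 * (T * T)) ≤ 2 ^ T * 2 ^ (8000 * (T * T)) := by gcongr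
      _ = 1/2 * 2 ^ (T + 8000 * (T * T) + 1) := by rw [pow_succ, pow_add]; ring
      _ ≤ 1/2 * 2 ^ (10000 * (T * T)) := by
          gcongr
          · norm_num
          · omega
      _ ≤ _ := by gcongr
  have hSg0 : 0 ≤ Sg1 := tsum_nonneg (fun m => by positivity)
  have hSgT : Sg1 ≤ 2 ^ T := by
    have : (t1:ℝ) ≤ T := by exact_mod_cast (by omega : t1 ≤ T)
    linarith
  have hc2 : 2 ^ (Fintype.card (JJ (Fin h))) * (2 * M * G / (Real.pi * H)) * Sg1 ≤ 1/2 := by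
    calc 2 ^ (Fintype.card (JJ (Fin h))) * (2 * M * G / (Real.pi * H)) * Sg1
        ≤ 2 ^ T * (2 * M * G / (Real.pi * H)) * 2 ^ T := by gcongr
      _ = (2 ^ T * (2 * M * G) * 2 ^ T) / (Real.pi * H) := by ring
      _ ≤ 1/2 := by
          rw [div_le_iff₀ hpiH, hGT, hMR]
          calc (2:ℝ) ^ T * (2 * 2 ^ (1000 * T) * 2 ^ (8000 * (T * T))) * 2 ^ T =
                1/2 * 2 ^ (T + 1000 * T + 8000 * (T * T) + T + 2) := by
                rw [pow_add, pow_add, pow_add, pow_add]; ring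
            _ ≤ 1/2 * 2 ^ (10000 * (T * T)) := by
                gcongr
                · norm_num
                · nlinarith
            _ ≤ _ := by gcongr
  have haT : ∑ S : JJ (Fin h), |a (dd p S)| ≤ T * Ca := by
    calc ∑ S : JJ (Fin h), |a (dd p S)| ≤ ∑ S : JJ (Fin h), Ca := by
          apply Finset.sum_le_sum
          intro S _
          have h1 := dd_pos hp S
          refine (haC _ h1).trans ?_
          have h2 : (1:ℝ) ≤ √(dd p S : ℝ) := by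
            rw [Real.one_le_sqrt]; exact_mod_cast h1
          have h3 := Real.rpow_le_one_of_one_le_of_nonpos h2 (show (-(37/25):ℝ) ≤ 0 by norm_num)
          nlinarith
      _ = (Fintype.card (JJ (Fin h)) : ℝ) * Ca := by rw [Finset.sum_const, Finset.card_univ, nsmul_eq_mul]
      _ ≤ _ := by gcongr
  have hc3 : ∀ κ : ℝ, |κ| ≤ |κ₁| + |κ₂| → (∑ S : JJ (Fin h), |a (dd p S)|) * ((Cl + 2 * Real.pi * |κ|) * M * δ) ≤ 1/2 := by
    intro κ hκ
    have h1 : Ca * (Cl + 2 * Real.pi * |κ|) ≤ 2 ^ T := by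
      have h2 : Ca * (Cl + 2 * Real.pi * |κ|) ≤ Ca * (Cl + 2 * Real.pi * (|κ₁| + |κ₂|)) := by gcongr
      have : (t2:ℝ) ≤ T := by exact_mod_cast (by omega : t2 ≤ T)
      linarith
    calc _ ≤ (T * Ca) * ((Cl + 2 * Real.pi * |κ|) * M * δ) := by gcongr
      _ = (T * (Ca * (Cl + 2 * Real.pi * |κ|)) * M) * δ := by ring
      _ ≤ (2 ^ T * 2 ^ T * 2 ^ (1000 * T)) * (1 / 2 ^ (5000 * (T * T))) := by
          rw [← hMR]; gcongr
      _ = 2 ^ (T + T + 1000 * T + 1) / 2 / 2 ^ (5000 * (T * T)) := by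
          rw [pow_add, pow_add, pow_add]; ring
      _ ≤ 2 ^ (5000 * (T * T)) / 2 / 2 ^ (5000 * (T * T)) := by
          gcongr
          · norm_num
          · nlinarith
      _ = 1/2 := by field_simp
  -- the truncation
  obtain ⟨Y, hY1, hY2, hY3⟩ : ∃ Y : ℕ, M ≤ Y ∧ 1 ≤ Y ∧ C' * δ ^ (-(3/2):ℝ) * (Y:ℝ) ^ (-(24/25):ℝ) ≤ 1 := by
    have h1 : Tendsto (fun Y : ℕ => C' * δ ^ (-(3/2):ℝ) * (Y:ℝ) ^ (-(24/25):ℝ)) atTop (𝓝 0) := by
      have h2 : Tendsto (fun Y : ℕ => (Y:ℝ) ^ (-(24/25):ℝ)) atTop (𝓝 0) :=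
        (tendsto_rpow_neg_atTop (by norm_num : (0:ℝ) < 24/25)).comp tendsto_natCast_atTop_atTop
      have h3 := h2.const_mul (C' * δ ^ (-(3/2):ℝ))
      rwa [mul_zero] at h3
    obtain ⟨Y, hY⟩ := ((h1.eventually (gt_mem_nhds one_pos)).and (eventually_ge_atTop M)).exists
    exact ⟨Y, hY.2, hM1.trans hY.2, hY.1.le⟩
  have key : ∀ κ : ℝ, |κ| ≤ |κ₁| + |κ₂| → ∃ r ∈ Set.Icc R (R + H), 1/3 * ∑ S : JJ (Fin h), a (dd p S) - 2 ≤
      s * Pool.Agent.H383.GW.WS a φ w (r + κ * δ) δ := by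
    intro κ hκ
    obtain ⟨r, hr, hrv⟩ := exists_large (φ := φ) ha' hw hCl hl hA hs κ hδ0 (R := R) hH0 hc1 hc2 (hc3 κ hκ) hbig hY1
    refine ⟨r, hr, ?_⟩
    have h1 := (htail δ hδ0 (r + κ * δ) Y hY2).trans hY3
    rw [abs_le] at h1
    rcases hs with rfl | rfl
    · linarith [h1.1]
    · linarith [h1.2]
  have her : ∀ r ∈ Set.Icc R (R + H), C0 * er r δ ≤ 4 * C0 := by
    intro r hr
    have h1 := er_le hR hr.1 (by linarith [hr.2])
    rw [← hδ] at h1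
    nlinarith
  rcases hs with rfl | rfl
  · obtain ⟨r, hr, hrv⟩ := key κ₂ (by linarith [abs_nonneg κ₁])
    refine ⟨r, hr, ?_⟩
    have h1 := hS.lo r r δ (by linarith [hr.1]) hδ0 hδ1 (by rw [sub_self, abs_zero]; exact hδ0.le)
    have h2 := her r hr
    linarith
  · obtain ⟨r, hr, hrv⟩ := key κ₁ (by linarith [abs_nonneg κ₂])
    refine ⟨r, hr, ?_⟩
    have h1 := hS.up r r δ (by linarith [hr.1]) hδ0 hδ1 (by rw [sub_self, abs_zero]; exact hδ0.le)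
    have h2 := her r hr
    linarith

end Pool.Agent.Y938.Win
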