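import Mathlib
import Pool.Agent.Y938.Win.C
import Pool.Agent.W24.BothMain
import Pool.Agent.H383.GaussW

/-!
# Large values of both signs in every window: the main theorem
-/

open MeasureTheory Filter Topology Finset
open Pool.Agent.H383.AP Pool.Agent.H383.Gen Pool.Agent.H383.GW
open Pool.Agent.W24.Riesz Pool.Agent.W24.Liou Pool.Agent.W24.Ar Pool.Agent.W24.Both

namespace Pool.Agent.Y938.Win

/-- the choice of `h` -/
lemma ev_H (h0 : ℕ) : ∀ᶠ H : ℝ in atTop, ∃ h : ℕ, h0 ≤ h ∧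
    2 * (2:ℝ) ^ (10000 * 4 ^ h) ≤ H ∧
    c1 * (Real.log (Real.log H)) ^ (1/4:ℝ) * (Real.log (Real.log (Real.log H))) ^ (-(3/4):ℝ) ≤ GG h / 2 := by
  have hx : ∀ᶠ x : ℝ in atTop, 20000 * x ^ (7/10:ℝ) ≤ x ∧ 4 * (h0 + 10) ≤ Real.log x := by
    have t1 : Tendsto (fun x : ℝ => x ^ (3/10:ℝ)) atTop atTop := tendsto_rpow_atTop (by norm_num)
    filter_upwards [t1.eventually_ge_atTop 20000,
      Real.tendsto_log_atTop.eventually_ge_atTop (4 * (h0 + 10)), eventually_ge_atTop (1:ℝ)] with x a1 a3 a4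
    have hx0 : 0 < x := by linarith
    have e1 : x = x ^ (3/10:ℝ) * x ^ (7/10:ℝ) := by
      rw [← Real.rpow_add hx0]; norm_num
    refine ⟨?_, a3⟩
    calc 20000 * x ^ (7/10:ℝ) ≤ x ^ (3/10:ℝ) * x ^ (7/10:ℝ) := by gcongr
        _ = x := e1.symm
  have hN : ∀ᶠ N : ℝ in atTop, 20000 * (Real.log N) ^ (7/10:ℝ) ≤ Real.log N ∧ 4 * (h0 + 10) ≤ Real.log (Real.log N) :=
    Real.tendsto_log_atTop.eventually hx
  filter_upwards [hN, eventually_ge_atTop 3] with N hN hNR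
  obtain ⟨b1, b3⟩ := hN
  have hN0 : (0:ℝ) < N := by linarith
  set L : ℝ := Real.log N with hL
  set L2 : ℝ := Real.log L with hL2
  have h00 : (0:ℝ) ≤ h0 := Nat.cast_nonneg _
  have hL2' : 40 ≤ L2 := by linarith
  have hLpos : 0 < L := by
    rw [hL]; exact Real.log_pos (by linarith)
  refine ⟨⌊L2/2⌋₊, ?_, ?_, ?_⟩
  · apply Nat.le_floor; linarith
  all_goals
    obtain ⟨h, hh⟩ : ∃ h : ℕ, h = ⌊L2/2⌋₊ := ⟨_, rfl⟩
    rw [← hh]
    have hle : (h:ℝ) ≤ L2/2 := by rw [hh]; exact Nat.floor_le (by linarith)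
    have hge : L2/4 ≤ h := by
      have := Nat.lt_floor_add_one (L2/2)
      rw [← hh] at this
      linarith
    have h4h : ((4:ℝ)) ^ h ≤ L ^ (7/10:ℝ) := by
      rw [← Real.rpow_natCast, Real.rpow_def_of_pos (by norm_num : (0:ℝ) < 4), Real.rpow_def_of_pos hLpos, ← hL2]
      apply Real.exp_le_exp.mpr
      have e1 : Real.log 4 = 2 * Real.log 2 := by
        rw [show (4:ℝ) = 2^2 by norm_num, Real.log_pow]; norm_num
      rw [e1]
      have e2 := Real.log_two_lt_d9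
      have e3 : Real.log 2 ≤ 7/10 := by linarith
      have e4 := Real.log_pos (show (1:ℝ) < 2 by norm_num)
      nlinarith
  · have e0 : 2 * (2:ℝ) ^ (10000 * 4 ^ h) ≤ (2:ℝ) ^ (20000 * 4 ^ h) := by
      have e1 : 1 ≤ 4 ^ h := Nat.one_le_pow _ _ (by norm_num)
      calc 2 * (2:ℝ) ^ (10000 * 4 ^ h) = 2 ^ (10000 * 4 ^ h + 1) := by rw [pow_succ]; ring
        _ ≤ _ := pow_le_pow_right₀ (by norm_num) (by omega)
    have e5 : (2:ℝ) ^ (20000 * 4 ^ h) ≤ N := by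
      rw [← Real.rpow_natCast, Real.rpow_def_of_pos (by norm_num : (0:ℝ) < 2)]
      rw [← Real.le_log_iff_exp_le hN0, ← hL]
      push_cast
      have e2 := Real.log_two_lt_d9
      have e4 := Real.log_pos (show (1:ℝ) < 2 by norm_num)
      have e6 : 20000 * (4:ℝ)^h ≤ 20000 * L ^ (7/10:ℝ) := by linarith
      have e7 : 0 ≤ 20000 * (4:ℝ)^h := by positivity
      nlinarith
    exact e0.trans e5
  · have hh0 : (0:ℝ) < h := by linarith
    have hh1 : (1:ℝ) < h := by linarith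
    have hlogh : 0 < Real.log h := Real.log_pos hh1
    have hlogle : Real.log h ≤ Real.log L2 := Real.log_le_log hh0 (by linarith)
    have hL3 : 0 < Real.log L2 := by linarith
    unfold GG c1
    have e1 : (80 * (h:ℝ) * Real.log L2) ^ (-(3/4):ℝ) ≤ (80 * h * Real.log h) ^ (-(3/4):ℝ) := by
      apply Real.rpow_le_rpow_of_nonpos (by positivity) (by gcongr) (by norm_num)
    have e2 : (h:ℝ) * (80 * (h:ℝ) * Real.log L2) ^ (-(3/4):ℝ) =
        (80:ℝ) ^ (-(3/4):ℝ) * (h:ℝ) ^ (1/4:ℝ) * (Real.log L2) ^ (-(3/4):ℝ) := by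
      rw [Real.mul_rpow (by positivity) hL3.le, Real.mul_rpow (by norm_num) hh0.le]
      have : (h:ℝ) * (h:ℝ) ^ (-(3/4):ℝ) = (h:ℝ) ^ (1/4:ℝ) := by
        nth_rewrite 1 [← Real.rpow_one (h:ℝ)]
        rw [← Real.rpow_add hh0]; norm_num
      calc (h:ℝ) * ((80:ℝ) ^ (-(3/4):ℝ) * (h:ℝ) ^ (-(3/4):ℝ) * (Real.log L2) ^ (-(3/4):ℝ)) =
          (80:ℝ) ^ (-(3/4):ℝ) * ((h:ℝ) * (h:ℝ) ^ (-(3/4):ℝ)) * (Real.log L2) ^ (-(3/4):ℝ) := by ring
        _ = _ := by rw [this]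
    have e3 : (1/4:ℝ) ^ (1/4:ℝ) * L2 ^ (1/4:ℝ) ≤ (h:ℝ) ^ (1/4:ℝ) := by
      rw [← Real.mul_rpow (by norm_num) (by linarith)]
      apply Real.rpow_le_rpow (by positivity) (by linarith) (by norm_num)
    have e4 : (80:ℝ) ^ (-(3/4):ℝ) * ((1/4:ℝ) ^ (1/4:ℝ) * L2 ^ (1/4:ℝ)) * (Real.log L2) ^ (-(3/4):ℝ) ≤
        h * (80 * h * Real.log h) ^ (-(3/4):ℝ) := by
      calc _ ≤ (80:ℝ) ^ (-(3/4):ℝ) * (h:ℝ) ^ (1/4:ℝ) * (Real.log L2) ^ (-(3/4):ℝ) := by gcongr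
        _ = (h:ℝ) * (80 * (h:ℝ) * Real.log L2) ^ (-(3/4):ℝ) := e2.symm
        _ ≤ _ := by gcongr
    linarith

variable {a : ℕ → ℝ} {φ : ℝ} {w : ℝ → ℂ} {E : ℝ → ℝ}

/-- **main theorem**: large values of both signs in every window of real radii -/
theorem window_main (ha : Bd a) (ha0 : a 0 = 0) (hw : Wt w) {κ₁ κ₂ C0 : ℝ} (hC0 : 0 < C0)
    (hS : Sand E a φ w κ₁ κ₂ C0) (hL : LBp a) : ∃ H0 : ℝ, ∀ R H : ℝ, 0 ≤ R → H0 ≤ H →
      ∀ s : ℝ, (s = 1 ∨ s = -1) → ∃ r ∈ Set.Icc R (R + H),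
        Real.exp (c1 * (Real.log (Real.log H)) ^ (1/4:ℝ) * (Real.log (Real.log (Real.log H))) ^ (-(3/4):ℝ)) ≤
          s * E r := by
  obtain ⟨h1, hcore⟩ := window_core ha ha0 hw hC0 hS
  obtain ⟨h2, hpr⟩ := primes_h one_pos
  obtain ⟨cf, hcf, hLf⟩ := hL
  obtain ⟨h3, hV⟩ := eventually_atTop.mp (ev_V (C0 := 4 * C0 + 3) hcf)
  -- 80 h log h ≤ 2 ^ h
  have hpow : ∀ᶠ h : ℕ in atTop, 80 * (h:ℝ) * Real.log h ≤ 2 ^ h := by
    have t1 := tendsto_pow_const_div_const_pow_of_one_lt 2 (show (1:ℝ) < 2 by norm_num)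
    have t2 := t1.eventually (gt_mem_nhds (show (0:ℝ) < 1/80 by norm_num))
    filter_upwards [t2, eventually_ge_atTop 1] with h t3 t4
    have hR : (1:ℝ) ≤ h := by exact_mod_cast t4
    rw [div_lt_iff₀ (by positivity)] at t3
    have t5 : Real.log h ≤ h := (Real.log_le_sub_one_of_pos (by linarith)).trans (by linarith)
    nlinarith
  obtain ⟨h4, hp4⟩ := eventually_atTop.mp hpow
  obtain ⟨H0, hH0⟩ := eventually_atTop.mp (ev_H (max (max h1 h2) (max (max h3 h4) 3)))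
  refine ⟨max H0 8, fun R H hR hH s hs => ?_⟩
  obtain ⟨h, hh, a1, a3⟩ := hH0 H ((le_max_left _ _).trans hH)
  have hH8 : 8 ≤ H := (le_max_right _ _).trans hH
  obtain ⟨p, q1, q2, q3, q4, q5⟩ := hpr h (by omega)
  obtain ⟨v1, v2⟩ := hV h (by omega)
  have hR3 : (3:ℝ) ≤ h := by exact_mod_cast (by omega : 3 ≤ h)
  have hlog : 0 < Real.log h := Real.log_pos (by linarith)
  have hsum := sum_af_ge hcf hLf q1 q2 q3 q5
  have hG : (h:ℝ) * (80 * h * Real.log h) ^ (-(3/4):ℝ) = GG h := rfl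
  rw [hG] at hsum
  have hple : ∀ i, p i ≤ 2 ^ h := by
    intro i
    have := (q5 i).trans (hp4 h (by omega))
    exact_mod_cast this
  -- a window not longer than its left end
  obtain ⟨R', H', hR', hHR', hH', hsub⟩ : ∃ R' H' : ℝ, 4 ≤ R' ∧ H' ≤ R' ∧ (2:ℝ) ^ (10000 * 4 ^ h) ≤ H' ∧
      Set.Icc R' (R' + H') ⊆ Set.Icc R (R + H) := by
    rcases le_or_gt H R with hc | hc
    · refine ⟨R, H, by linarith, hc, by linarith [show (0:ℝ) < (2:ℝ) ^ (10000 * 4 ^ h) by positivity], le_refl _⟩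
    · refine ⟨R + H/2, H/2, by linarith, by linarith, by linarith, ?_⟩
      apply Set.Icc_subset_Icc
      · linarith
      · linarith
  obtain ⟨r, hr, hrv⟩ := hcore h (by omega) p q1 q3 hple R' H' hR' hHR' hH' s hs (by linarith)
  refine ⟨r, hsub hr, ?_⟩
  calc Real.exp (c1 * (Real.log (Real.log H)) ^ (1/4:ℝ) * (Real.log (Real.log (Real.log H))) ^ (-(3/4):ℝ))
      ≤ Real.exp (GG h / 2) := Real.exp_le_exp.mpr a3
    _ ≤ 1/3 * (cf * (Real.exp (GG h) - 1)) - 2 * ((4 * C0 + 3) + 2) := v2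
    _ ≤ _ := by linarith

end Pool.Agent.Y938.Win
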